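import Pool.Agent.Q81.Cval3

/-!
# Minimal representations of achievable Cantorvals (MP_61d686)
-/

namespace Pool.Agent.Results.MP_61d686_an.MinimalCantorvals

open Set Filter Topology

/-- The set of subsums `∑_{n ∈ S} x_n`, `S ⊆ I`, of the terms with index in `I`. -/
def subsums (x : ℕ → ℝ) (I : Set ℕ) : Set ℝ := {y | ∃ S ⊆ I, y = ∑' n, S.indicator x n}

/-- The tail `r_n = ∑_{k > n} x_k`. -/
noncomputable def tail (x : ℕ → ℝ) (n : ℕ) : ℝ := ∑' k, x (n + 1 + k)

/-- A Cantorval. -/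
def IsCantorval (E : Set ℝ) : Prop :=
  E.Nonempty ∧ IsCompact E ∧ closure (interior E) = E ∧
    ∀ z ∈ E, ∀ a b : ℝ, a < b → connectedComponentIn E z = Icc a b →
      AccPt a (𝓟 {y | y ∈ E ∧ connectedComponentIn E y = {y}}) ∧
      AccPt b (𝓟 {y | y ∈ E ∧ connectedComponentIn E y = {y}})

/-- The representation `(x_n)` is minimal. -/
def IsMinimal (x : ℕ → ℝ) : Prop :=
  ∀ A : Set ℕ, A.Infinite → IsEmpty (subsums x univ ≃ₜ subsums x Aᶜ)

lemma tail_eq {x : ℕ → ℝ} (n : ℕ) : tail x n = Q81.Cval.tl x n := by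
  unfold tail Q81.Cval.tl Q81.Cval.ss
  have h1 : Ioi n = (fun k => n + 1 + k) '' univ := by
    ext m
    simp only [mem_Ioi, image_univ, mem_range]
    exact ⟨fun h => ⟨m - (n + 1), by omega⟩, by rintro ⟨k, rfl⟩; omega⟩
  rw [← tsum_subtype, h1, tsum_image x (fun a _ b _ h => by simpa using h)]
  exact (tsum_univ fun k => x (n + 1 + k)).symm

/-- There is a positive nonincreasing summable sequence `x` (namely `3/8, 2/8, 2/8, 2/8, 3/64,
2/64, 2/64, 2/64, ...`) whose achievement set is a Cantorval, which is a minimal representation,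
although `x_n < r_{n+1}` for infinitely many `n`. -/
theorem result : ∃ x : ℕ → ℝ, (∀ n, 0 < x n) ∧ Antitone x ∧ Summable x ∧
    IsCantorval (subsums x univ) ∧ IsMinimal x ∧ {n | x n < tail x (n + 1)}.Infinite := by
  refine ⟨Q81.Cval.xx, Q81.Cval.xx_pos, Q81.Cval.xx_anti, Q81.Cval.xx_summable,
    Q81.Cval.cantorval, fun A hA => Q81.Cval.minimal hA, ?_⟩
  simp only [tail_eq]
  exact Q81.Cval.often

end Pool.Agent.Results.MP_61d686_an.MinimalCantorvals
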